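import Pool.Agent.V11112.BG4

/-!
Lower growth rate versus Hausdorff dimension for beta-expansions: a counterexample.
The digit `ε_n` (`n ≥ 1`) of a sequence `y` is `y (n - 1)`, that is, indices are shifted by one.
-/

open Filter Topology

namespace Pool.Agent.Results.MP_523de7_an.GrowthWithoutDimension

/-- infinite sequences of digits `0` (`false`) and `1` (`true`) -/
def Digits : Type := ℕ → Bool

/-- the distance `2 ^ (-n(y,z))`, where `n(y,z) = firstDiff y z + 1` is the position (counted from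
`1`) of the first digit at which `y` and `z` differ; and `0` if `y = z` -/
noncomputable def digitDist (y z : Digits) : ℝ :=
  letI := Classical.propDecidable (y = z)
  if y = z then 0 else (1 / 2 : ℝ) ^ (PiNat.firstDiff (E := fun _ : ℕ => Bool) y z + 1)

theorem digitDist_eq (y z : Digits) :
    digitDist y z = (1 / 2) * @Dist.dist _ (PiNat.dist (E := fun _ : ℕ => Bool)) y z := by
  by_cases h : y = z
  · subst h
    have : @Dist.dist _ (PiNat.dist (E := fun _ : ℕ => Bool)) y y = 0 :=
      PiNat.dist_self (E := fun _ : ℕ => Bool) y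
    rw [this]
    simp [digitDist]
  · have : @Dist.dist _ (PiNat.dist (E := fun _ : ℕ => Bool)) y z
        = (1 / 2 : ℝ) ^ PiNat.firstDiff (E := fun _ : ℕ => Bool) y z :=
      PiNat.dist_eq_of_ne (E := fun _ : ℕ => Bool) h
    rw [this]
    simp only [digitDist, h, if_false]
    rw [pow_succ]
    ring

noncomputable instance : MetricSpace Digits where
  dist := digitDist
  dist_self y := by
    change digitDist y y = 0
    simp [digitDist]
  dist_comm y z := by
    change digitDist y z = digitDist z y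
    rw [digitDist_eq, digitDist_eq, PiNat.dist_comm]
  dist_triangle x y z := by
    change digitDist x z ≤ digitDist x y + digitDist y z
    rw [digitDist_eq, digitDist_eq, digitDist_eq]
    have := PiNat.dist_triangle (E := fun _ : ℕ => Bool) x y z
    linarith
  eq_of_dist_eq_zero {x y} h := by
    change digitDist x y = 0 at h
    by_contra hne
    simp only [digitDist, hne, if_false] at h
    have : (0 : ℝ) < (1 / 2 : ℝ) ^ (PiNat.firstDiff (E := fun _ : ℕ => Bool) x y + 1) := by
      positivity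
    linarith

/-- `Σ_β(x)`: the set of digit sequences with `∑ ε_n β^{-n} = x` -/
def expansions (β x : ℝ) : Set Digits :=
  {y | ∑' n : ℕ, (if y n = true then (1 : ℝ) else 0) / β ^ (n + 1) = x}

/-- `N_k(x, β)`: the number of words of length `k` which are initial segments of elements of
`Σ_β(x)` -/
noncomputable def prefixCount (β x : ℝ) (k : ℕ) : ℕ :=
  Set.ncard {p : Fin k → Bool | ∃ y ∈ expansions β x, ∀ i : Fin k, y i = p i}

/-- the lower growth rate -/
noncomputable def lowerGrowth (β x : ℝ) : ℝ :=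
  liminf (fun k : ℕ => Real.logb 2 (prefixCount β x k) / k) atTop

theorem expansions_eq (β x : ℝ) :
    (expansions β x : Set (ℕ → Bool)) = {y : ℕ → Bool | V11112.BG.val β y = x} := rfl

theorem prefixCount_eq (β x : ℝ) (k : ℕ) : prefixCount β x k = V11112.BG.numPrefix β x k := by
  unfold prefixCount V11112.BG.numPrefix
  congr 1
  ext p
  constructor
  · rintro ⟨y, hy, h⟩
    exact ⟨y, hy, funext h⟩
  · rintro ⟨y, hy, h⟩
    exact ⟨y, hy, fun i => congrFun h i⟩

theorem exists_base : ∃ β : ℝ, 1.90516 ≤ β ∧ β ≤ 1.90517 ∧ β ^ 4 = β ^ 3 + 2 * β ^ 2 - 1 := by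
  have hc : ContinuousOn (fun b : ℝ => b ^ 4 - b ^ 3 - 2 * b ^ 2 + 1) (Set.Icc 1.90516 1.90517) := by
    fun_prop
  have := intermediate_value_Icc (by norm_num : (1.90516 : ℝ) ≤ 1.90517) hc
  have h0 : (0 : ℝ) ∈ Set.Icc ((fun b : ℝ => b ^ 4 - b ^ 3 - 2 * b ^ 2 + 1) 1.90516)
      ((fun b : ℝ => b ^ 4 - b ^ 3 - 2 * b ^ 2 + 1) 1.90517) := by
    constructor <;> norm_num
  obtain ⟨β, ⟨h1, h2⟩, h3⟩ := this h0
  refine ⟨β, h1, h2, ?_⟩
  have h4 : β ^ 4 - β ^ 3 - 2 * β ^ 2 + 1 = 0 := h3
  linarith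

/-- **Result.** (1) There are `β ∈ (1,2)` (the root near `1.90517` of `t⁴ = t³ + 2t² - 1`) and
`x ∈ [0, 1/(β-1)]` such that the set `Σ_β(x)` of `β`-expansions of `x` is countable, so that its
Hausdorff dimension is `0`, while `N_k(x,β) ≥ 2^{k/28 - 4}` for all `k`, so that the lower growth
rate is at least `1/28`. (2) Consequently the implication asked about in the problem fails. -/
theorem result :
    (∃ β x : ℝ, 1 < β ∧ β < 2 ∧ β ^ 4 = β ^ 3 + 2 * β ^ 2 - 1 ∧ x ∈ Set.Icc 0 (1 / (β - 1)) ∧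
      (expansions β x).Countable ∧ dimH (expansions β x) = 0 ∧
      (∀ k : ℕ, (2 : ℝ) ^ ((k : ℝ) / 28 - 4) ≤ prefixCount β x k) ∧
      1 / 28 ≤ lowerGrowth β x) ∧
    ¬ (∀ β x : ℝ, 1 < β → β < 2 → x ∈ Set.Icc 0 (1 / (β - 1)) →
        0 < lowerGrowth β x → 0 < dimH (expansions β x)) := by
  have main : ∃ β x : ℝ, 1 < β ∧ β < 2 ∧ β ^ 4 = β ^ 3 + 2 * β ^ 2 - 1 ∧
      x ∈ Set.Icc 0 (1 / (β - 1)) ∧
      (expansions β x).Countable ∧ dimH (expansions β x) = 0 ∧
      (∀ k : ℕ, (2 : ℝ) ^ ((k : ℝ) / 28 - 4) ≤ prefixCount β x k) ∧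
      1 / 28 ≤ lowerGrowth β x := by
    obtain ⟨β, h1, h2, hβ⟩ := exists_base
    have h1' : 1 < β := by linarith
    have hcount : (expansions β (V11112.BG.val β V11112.BG.spine)).Countable :=
      V11112.BG.countable_expansions hβ h1 h2
    have hgrow : ∀ k : ℕ, (2 : ℝ) ^ ((k : ℝ) / 28 - 4) ≤
        prefixCount β (V11112.BG.val β V11112.BG.spine) k := by
      intro k
      rw [prefixCount_eq]
      obtain ⟨m, hm1, hm2⟩ := V11112.BG.numPrefix_growth hβ h1' k
      calc (2 : ℝ) ^ ((k : ℝ) / 28 - 4) ≤ (2 : ℝ) ^ (m : ℝ) :=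
            Real.rpow_le_rpow_of_exponent_le (by norm_num) hm1
        _ = ((2 ^ m : ℕ) : ℝ) := by rw [Real.rpow_natCast]; push_cast; rfl
        _ ≤ _ := by exact_mod_cast hm2
    refine ⟨β, V11112.BG.val β V11112.BG.spine, h1', by linarith, hβ,
      ⟨V11112.BG.val_nonneg h1' _, V11112.BG.val_le h1' _⟩, hcount, hcount.dimH_zero, hgrow, ?_⟩
    have hub : ∀ k : ℕ, Real.logb 2 (prefixCount β (V11112.BG.val β V11112.BG.spine) k) / k ≤ 1 := by
      intro k
      rw [prefixCount_eq]
      have hle : (V11112.BG.numPrefix β (V11112.BG.val β V11112.BG.spine) k : ℝ) ≤ 2 ^ k := by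
        exact_mod_cast V11112.BG.numPrefix_le k
      have hpos : (0 : ℝ) < V11112.BG.numPrefix β (V11112.BG.val β V11112.BG.spine) k := by
        exact_mod_cast V11112.BG.numPrefix_pos k
      have : Real.logb 2 (V11112.BG.numPrefix β (V11112.BG.val β V11112.BG.spine) k) ≤ k := by
        rw [Real.logb_le_iff_le_rpow (by norm_num) hpos, Real.rpow_natCast]
        exact hle
      exact div_le_one_of_le₀ this (by positivity)
    have hcob : IsCoboundedUnder (· ≥ ·) atTop
        (fun k : ℕ => Real.logb 2 (prefixCount β (V11112.BG.val β V11112.BG.spine) k) / k) :=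
      (isBoundedUnder_of ⟨1, hub⟩ : IsBoundedUnder (· ≤ ·) atTop _).isCoboundedUnder_ge
    have hlow : ∀ k : ℕ, 0 < k → 1 / 28 - 4 / (k : ℝ) ≤
        Real.logb 2 (prefixCount β (V11112.BG.val β V11112.BG.spine) k) / k := by
      intro k hk
      have hk' : (0 : ℝ) < k := by exact_mod_cast hk
      have hp : (0 : ℝ) < prefixCount β (V11112.BG.val β V11112.BG.spine) k :=
        lt_of_lt_of_le (by positivity) (hgrow k)
      have : (k : ℝ) / 28 - 4 ≤
          Real.logb 2 (prefixCount β (V11112.BG.val β V11112.BG.spine) k) := by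
        rw [Real.le_logb_iff_rpow_le (by norm_num) hp]
        exact hgrow k
      rw [le_div_iff₀ hk']
      have e : (1 / 28 - 4 / (k : ℝ)) * k = (k : ℝ) / 28 - 4 := by field_simp
      rw [e]
      exact this
    by_contra hlt
    push Not at hlt
    obtain ⟨c, hc1, hc2⟩ := exists_between hlt
    have ht : Tendsto (fun k : ℕ => 1 / 28 - 4 / (k : ℝ)) atTop (𝓝 (1 / 28 - 0)) :=
      tendsto_const_nhds.sub (tendsto_const_div_atTop_nhds_zero_nat 4)
    rw [sub_zero] at ht
    have hev : ∀ᶠ k : ℕ in atTop, c ≤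
        Real.logb 2 (prefixCount β (V11112.BG.val β V11112.BG.spine) k) / k := by
      filter_upwards [ht.eventually (lt_mem_nhds hc2), eventually_gt_atTop 0] with k hk hk0
      exact hk.le.trans (hlow k hk0)
    have := le_liminf_of_le hcob hev
    exact absurd hc1 (not_lt.2 this)
  refine ⟨main, ?_⟩
  intro hall
  obtain ⟨β, x, h1, h2, _, hx, _, hd, _, hg⟩ := main
  have := hall β x h1 h2 hx (lt_of_lt_of_le (by norm_num) hg)
  rw [hd] at this
  exact lt_irrefl _ this

end Pool.Agent.Results.MP_523de7_an.GrowthWithoutDimension
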